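import Pool.Agent.H.MP_f37e0b_al.B

set_option autoImplicit false

namespace Pool.Agent.Results.MP_f89e7b_al.No

open CategoryTheory Pretriangulated Pool.Agent.H.MP_f37e0b_al

variable (C : Type 1) [Category.{1} C] [Preadditive C] [Limits.HasZeroObject C] [HasShift C ℤ]
  [∀ n : ℤ, (shiftFunctor C n).Additive] [Pretriangulated C]

/-- `C` is triangulated and has two chain homotopic maps of exact triangles of which exactly one
is Verdier good. -/
def Cex : Prop := IsTriangulated C ∧ ∃ (T T' : Triangle C) (φ ψ : T ⟶ T'),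
  T ∈ distTriang C ∧ T' ∈ distTriang C ∧ Homotopic φ ψ ∧ VerdierGood φ ∧
    (∀ D : Aux φ, VGFor D) ∧ ¬ VerdierGood ψ

/-- The derived category of abelian groups is a counterexample. -/
theorem result : Cex (DC ℤ) := by
  obtain ⟨T, T', φ, ψ, h1, h2, h3, -, -, h4, h5⟩ := exR (2 : ℤ) fun t => by omega
  exact ⟨inferInstance, T, T', φ, ψ, h1, h2, h4, h3, (vg_iff φ).mp h3, h5⟩

end Pool.Agent.Results.MP_f89e7b_al.No
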